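import Pool.Agent.Helper88.SH.P4

/-!
# SHARP (MP_b21509_co), link (4): linear bounds for the domain
-/

set_option autoImplicit false

namespace Pool.Agent.Helper88.P4

/-- the support function of the domain in the direction `(p, q)`, `p, q ≥ 0` -/
theorem dom_lin (b g x y p q w : ℝ) (hD : Dom b g x y) (hp : 0 ≤ p) (hq : 0 ≤ q) (hw : 0 ≤ w)
    (h : ((p - q) / 2) ^ 2 + (3 * p + q / 4) ^ 2 / 3 ≤ w ^ 2) :
    p * |x| + q * |y| ≤ (p + q) / 2 + w := by
  obtain ⟨hb, X, V, hX, hV, hx, hy⟩ := hD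
  have b1 : -1 ≤ b ∧ b ≤ 1 := abs_le_of_sq_le_sq' (by nlinarith [sq_nonneg g]) (by norm_num)
  have ax : |x| ≤ (1 + b) / 2 + 3 * |g| := by
    rw [hx]
    calc |X * (1 + b) + 3 * V * g| ≤ |X * (1 + b)| + |3 * V * g| := abs_add_le _ _
      _ = |X| * (1 + b) + 3 * (|V| * |g|) := by
          rw [abs_mul, abs_mul, abs_mul, abs_of_nonneg (show (0 : ℝ) ≤ 1 + b by linarith [b1.1]),
            abs_of_pos (show (0 : ℝ) < 3 by norm_num)]
          ring
      _ ≤ 1 / 2 * (1 + b) + 3 * (1 * |g|) := by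
          have h1 := mul_le_mul_of_nonneg_right hX (show (0 : ℝ) ≤ 1 + b by linarith [b1.1])
          have h2 := mul_le_mul_of_nonneg_right hV (abs_nonneg g)
          linarith
      _ = _ := by ring
  have ay : |y| ≤ |g| / 4 + (1 - b) / 2 := by
    rw [hy]
    calc |(X * g + V * (1 - b)) / 2| = |X * g + V * (1 - b)| / 2 := by
          rw [abs_div, abs_of_pos (show (0 : ℝ) < 2 by norm_num)]
      _ ≤ (|X * g| + |V * (1 - b)|) / 2 := by
          have := abs_add_le (X * g) (V * (1 - b))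
          linarith
      _ = (|X| * |g| + |V| * (1 - b)) / 2 := by
          rw [abs_mul, abs_mul, abs_of_nonneg (show (0 : ℝ) ≤ 1 - b by linarith [b1.2])]
      _ ≤ (1 / 2 * |g| + 1 * (1 - b)) / 2 := by
          have h1 := mul_le_mul_of_nonneg_right hX (abs_nonneg g)
          have h2 := mul_le_mul_of_nonneg_right hV (show (0 : ℝ) ≤ 1 - b by linarith [b1.2])
          linarith
      _ = _ := by ring
  have h1 := mul_le_mul_of_nonneg_left ax hp
  have h2 := mul_le_mul_of_nonneg_left ay hq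
  have h3 : b * ((p - q) / 2) + |g| * (3 * p + q / 4) ≤ w := by
    refine le_of_sq ?_ hw
    refine le_trans ?_ h
    have hg : |g| ^ 2 = g ^ 2 := sq_abs g
    have c1 : (b * ((p - q) / 2) + |g| * (3 * p + q / 4)) ^ 2 ≤
        (b ^ 2 + 3 * |g| ^ 2) * (((p - q) / 2) ^ 2 + (3 * p + q / 4) ^ 2 / 3) := by
      nlinarith [sq_nonneg (b * (3 * p + q / 4) - 3 * |g| * ((p - q) / 2))]
    rw [hg] at c1
    have c2 : (b ^ 2 + 3 * g ^ 2) * (((p - q) / 2) ^ 2 + (3 * p + q / 4) ^ 2 / 3) ≤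
        1 * (((p - q) / 2) ^ 2 + (3 * p + q / 4) ^ 2 / 3) :=
      mul_le_mul_of_nonneg_right hb (by positivity)
    linarith
  linarith

/-- the seven bounds which the checker uses -/
theorem dom_seven (b g x y : ℝ) (hD : Dom b g x y) :
    100 * |x| ≤ 231 ∧ 100 * |y| ≤ 103 ∧ 100 * (4 * |x| + 5 * |y|) ≤ 1217 ∧
      100 * (2 * |x| + |y|) ≤ 515 ∧ 100 * (|x| + 2 * |y|) ≤ 359 ∧
      100 * (4 * |x| + 3 * |y|) ≤ 1088 ∧ 100 * (5 * |x| + 2 * |y|) ≤ 1258 := by
  have h1 := dom_lin b g x y 1 0 (181 / 100) hD (by norm_num) (by norm_num) (by norm_num)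
    (by norm_num)
  have h2 := dom_lin b g x y 0 1 (53 / 100) hD (by norm_num) (by norm_num) (by norm_num)
    (by norm_num)
  have h3 := dom_lin b g x y 4 5 (767 / 100) hD (by norm_num) (by norm_num) (by norm_num)
    (by norm_num)
  have h4 := dom_lin b g x y 2 1 (365 / 100) hD (by norm_num) (by norm_num) (by norm_num)
    (by norm_num)
  have h5 := dom_lin b g x y 1 2 (209 / 100) hD (by norm_num) (by norm_num) (by norm_num)
    (by norm_num)
  have h6 := dom_lin b g x y 4 3 (738 / 100) hD (by norm_num) (by norm_num) (by norm_num)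
    (by norm_num)
  have h7 := dom_lin b g x y 5 2 (908 / 100) hD (by norm_num) (by norm_num) (by norm_num)
    (by norm_num)
  refine ⟨?_, ?_, ?_, ?_, ?_, ?_, ?_⟩ <;> linarith

end Pool.Agent.Helper88.P4
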