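import Pool.Agent.Helper88.SH.TD

/-!
# SHARP (MP_b21509_co), link (4): soundness of the checker
-/

set_option autoImplicit false

namespace Pool.Agent.Helper88.P4

theorem vt_sound (P2 P3 lo hi be a2 a3 A G H : ℤ) (h : vt P2 P3 lo hi be a2 a3 A G H = true)
    (n p2 p3 lor hir ber a2r a3r Ar Gr Hr : ℝ) (hn : 0 < n)
    (eP2 : (P2 : ℝ) = n * p2) (eP3 : (P3 : ℝ) = n * p3) (elo : (lo : ℝ) = n * lor)
    (ehi : (hi : ℝ) = n * hir) (ebe : (be : ℝ) = n * ber) (ea2 : (a2 : ℝ) = 2 * n * a2r)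
    (ea3 : 3 * (a3 : ℝ) = 2 * n * a3r) (eA : (A : ℝ) = 2 * n ^ 3 * Ar)
    (eG : (G : ℝ) = 2 * n ^ 2 * Gr) (eH : (H : ℝ) = 8 * n ^ 2 * Hr) :
    ∃ K : ℝ, (0 ≤ Gr → K = lor * Gr) ∧ (Gr < 0 → K = hir * Gr) ∧
      a3r * (Gr ^ 2 - 4 * p2 * K) + a2r * (Hr ^ 2 + 12 * p3 * ber * |Hr|) ≤
        4 * a2r * a3r * Ar := by
  simp only [vt, decide_eq_true_eq] at h
  have hG : 0 ≤ G ↔ 0 ≤ Gr := by
    constructor
    · intro h0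
      have : (0 : ℝ) ≤ (G : ℝ) := by exact_mod_cast h0
      rw [eG] at this
      exact nonneg_of_mul_nonneg_right this (by positivity)
    · intro h0
      have : (0 : ℝ) ≤ (G : ℝ) := by rw [eG]; positivity
      exact_mod_cast this
  have hH : 0 ≤ H ↔ 0 ≤ Hr := by
    constructor
    · intro h0
      have : (0 : ℝ) ≤ (H : ℝ) := by exact_mod_cast h0
      rw [eH] at this
      exact nonneg_of_mul_nonneg_right this (by positivity)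
    · intro h0
      have : (0 : ℝ) ≤ (H : ℝ) := by rw [eH]; positivity
      exact_mod_cast this
  have hn5 : 0 < 128 * n ^ 5 := by positivity
  have ea3' : (a3 : ℝ) = 2 * n * a3r / 3 := by linarith
  by_cases g : 0 ≤ G
  · have g' : 0 ≤ Gr := hG.1 g
    refine ⟨lor * Gr, fun _ => rfl, fun h' => absurd g' (not_le.2 h'), ?_⟩
    by_cases k : 0 ≤ H
    · rw [if_pos g, if_pos k] at h
      have hr := (Int.cast_le (R := ℝ)).2 h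
      push_cast at hr
      rw [eP2, eP3, elo, ebe, ea2, ea3', eA, eG, eH] at hr
      rw [abs_of_nonneg (hH.1 k)]
      refine le_of_mul_le_mul_left ?_ hn5
      linarith
    · rw [if_pos g, if_neg k] at h
      have hr := (Int.cast_le (R := ℝ)).2 h
      push_cast at hr
      rw [eP2, eP3, elo, ebe, ea2, ea3', eA, eG, eH] at hr
      rw [abs_of_neg (not_le.1 (mt hH.2 k))]
      refine le_of_mul_le_mul_left ?_ hn5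
      linarith
  · have g' : Gr < 0 := not_le.1 (mt hG.2 g)
    refine ⟨hir * Gr, fun h' => absurd g' (not_lt.2 h'), fun _ => rfl, ?_⟩
    by_cases k : 0 ≤ H
    · rw [if_neg g, if_pos k] at h
      have hr := (Int.cast_le (R := ℝ)).2 h
      push_cast at hr
      rw [eP2, eP3, ehi, ebe, ea2, ea3', eA, eG, eH] at hr
      rw [abs_of_nonneg (hH.1 k)]
      refine le_of_mul_le_mul_left ?_ hn5
      linarith
    · rw [if_neg g, if_neg k] at h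
      have hr := (Int.cast_le (R := ℝ)).2 h
      push_cast at hr
      rw [eP2, eP3, ehi, ebe, ea2, ea3', eA, eG, eH] at hr
      rw [abs_of_neg (not_le.1 (mt hH.2 k))]
      refine le_of_mul_le_mul_left ?_ hn5
      linarith

/-- the test of a vertex with the coefficients computed from the data -/
def vv (P : Par) (L S1U S2U S1V S2V u1 u2 v1 v2 m1 m2 x y A E : ℤ) : Bool :=
  vx P (2 * P.P2 + L) (2 * P.P3 + L) (S1U + S2U) (S1V + S2V)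
    (P.N * P.N * (2 * (S1U + S2U) - L))
    (P.N * (u1 - u2 + 3 * (v1 + v2)))
    (P.N * (u1 - u2 - 3 * (v1 + v2) + 2 * m1))
    (P.N * (3 * (u1 + u2) - 3 * (v1 - v2)))
    (P.N * (3 * (u1 + u2) + 3 * (v1 - v2) + 2 * m2))
    (P.N * (3 * (S2V - S1V) - (S1U + S2U)))
    (u1 - u2 - 3 * (v1 + v2))
    (3 * (v2 - v1) - 3 * (u1 + u2))
    (P.N * (15 * (S1U - S2U) - 33 * (S1V + S2V)))
    (24 * (u1 + u2) + 6 * (v1 - v2))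
    (6 * (u1 - u2) - 72 * (v1 + v2))
    m1 m2 x y (x + A) (y + E) (3 * P.F * (A * A + E * E))

theorem vw_vertices (P : Par) (L S1U S2U S1V S2V u1 u2 v1 v2 m1 m2 X0 X1 Y0 Y1 A0 A1 E0 E1 : ℤ)
    (h : vw P L S1U S2U S1V S2V u1 u2 v1 v2 m1 m2 X0 X1 Y0 Y1 A0 A1 E0 E1 = true) :
    ∀ x y A E : ℤ, (x = X0 ∨ x = X1) → (y = Y0 ∨ y = Y1) → (A = A0 ∨ A = A1) → (E = E0 ∨ E = E1) →
      vv P L S1U S2U S1V S2V u1 u2 v1 v2 m1 m2 x y A E = true := by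
  simp only [vw, vz, vy, Bool.and_eq_true] at h
  obtain ⟨⟨h1, h2, h3, h4⟩, ⟨h5, h6, h7, h8⟩, ⟨h9, h10, h11, h12⟩, ⟨h13, h14, h15, h16⟩⟩ := h
  intro x y A E hx hy hA hE
  rcases hx with rfl | rfl <;> rcases hy with rfl | rfl <;> rcases hA with rfl | rfl <;>
    rcases hE with rfl | rfl <;> unfold vv <;> assumption

theorem vertex_sound (P : Par) (U1 U2 U3 U4 V1 V2 V3 V4 L m1 m2 x y A E : ℤ)
    (h : vv P L (U1 + U2) (U3 + U4) (V1 + V2) (V3 + V4) (U1 - U2) (U3 - U4) (V1 - V2) (V3 - V4) m1 m2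
      x y A E = true)
    (n f p2 p3 lor hir ber w1 w2 w3 w4 z1 z2 z3 z4 l1 l2 k1 k2 x0 y0 a d : ℝ) (hn : 0 < n)
    (eN : (P.N : ℝ) = n) (eF : (P.F : ℝ) = n * f) (eP2 : (P.P2 : ℝ) = n * p2)
    (eP3 : (P.P3 : ℝ) = n * p3) (elo : (P.lo : ℝ) = n * lor) (ehi : (P.hi : ℝ) = n * hir)
    (ebe : (P.be : ℝ) = n * ber) (e1 : (U1 : ℝ) = n * w1) (e2 : (U2 : ℝ) = n * w2)
    (e3 : (U3 : ℝ) = n * w3) (e4 : (U4 : ℝ) = n * w4) (e5 : (V1 : ℝ) = n * z1)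
    (e6 : (V2 : ℝ) = n * z2) (e7 : (V3 : ℝ) = n * z3) (e8 : (V4 : ℝ) = n * z4)
    (eL : (L : ℝ) = n * (l1 + l2)) (em1 : (m1 : ℝ) = n * k1) (em2 : (m2 : ℝ) = n * k2)
    (ex : (x : ℝ) = n * x0) (ey : (y : ℝ) = n * y0) (eA : (A : ℝ) = n * a) (eE : (E : ℝ) = n * d)
    (hp2 : 0 < p2) (hp3 : 0 < p3) (hl1 : 0 ≤ l1) (hl2 : 0 ≤ l2) (c hh b g : ℝ) (hc1 : lor ≤ c)
    (hc2 : c ≤ hir) (hh1 : |hh| ≤ ber) :
    0 ≤ Phi w1 w2 w3 w4 z1 z2 z3 z4 l1 l2 k1 k2 f p2 p3 c hh b g x0 y0 a d := by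
  unfold vv vx at h
  obtain ⟨K, hK1, hK2, hm⟩ := vt_sound _ _ _ _ _ _ _ _ _ _ h n p2 p3 lor hir ber
    (p2 + (l1 + l2) / 2) (3 * p3 + 3 * ((l1 + l2) / 2))
    (Af w1 w2 w3 w4 z1 z2 z3 z4 l1 l2 k1 k2 f x0 y0 a d)
    (Gf w1 w2 w3 w4 z1 z2 z3 z4 k1 k2 x0 y0 a d)
    (Hf w1 w2 w3 w4 z1 z2 z3 z4 k1 k2 x0 y0 a d) hn eP2 eP3 elo ehi ebe
    (by push_cast; rw [eP2, eL]; ring)
    (by push_cast; rw [eP3, eL]; ring)
    (by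
      push_cast
      rw [eN, eF, eL, e1, e2, e3, e4, e5, e6, e7, e8, em1, em2, ex, ey, eA, eE]
      unfold Af
      ring)
    (by
      push_cast
      rw [eN, e1, e2, e3, e4, e5, e6, e7, e8, em1, em2, ex, ey, eA, eE]
      unfold Gf
      ring)
    (by
      push_cast
      rw [eN, e1, e2, e3, e4, e5, e6, e7, e8, em1, em2, ex, ey, eA, eE]
      unfold Hf
      ring)
  have := elim (Af w1 w2 w3 w4 z1 z2 z3 z4 l1 l2 k1 k2 f x0 y0 a d)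
    (Gf w1 w2 w3 w4 z1 z2 z3 z4 k1 k2 x0 y0 a d)
    (Hf w1 w2 w3 w4 z1 z2 z3 z4 k1 k2 x0 y0 a d) (p2 + (l1 + l2) / 2)
    (3 * p3 + 3 * ((l1 + l2) / 2)) p2 p3 lor hir ber c hh b g (by positivity) (by positivity)
    hp2.le hp3.le (by linarith) (by linarith) hc1 hc2 hh1 K hK1 hK2 hm
  unfold Phi
  linarith

/-! ### the edges -/

theorem ed_sound (N r U V x y : ℤ) (h : ed N r U V x y = true) (n ρ w z sx sy : ℝ) (hn : 0 < n)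
    (eN : (N : ℝ) = n) (er : (r : ℝ) = n * ρ) (eU : (U : ℝ) = n * w) (eV : (V : ℝ) = n * z)
    (hx : (2 * n * sx) ^ 2 ≤ (x : ℝ) ^ 2) (hy : (2 * n * sy) ^ 2 ≤ (y : ℝ) ^ 2) :
    0 ≤ ρ ∧ (ρ + w) ^ 2 + 3 * z ^ 2 ≤ ρ ^ 2 ∧ ρ ^ 2 * (sx ^ 2 + 3 * sy ^ 2) ≤ 1 := by
  simp only [ed, Bool.and_eq_true, decide_eq_true_eq] at h
  obtain ⟨h1, h2, h3⟩ := h
  have a1 : (0 : ℝ) ≤ (r : ℝ) := by exact_mod_cast h1
  have a2 := (Int.cast_le (R := ℝ)).2 h2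
  have a3 := (Int.cast_le (R := ℝ)).2 h3
  push_cast at a2 a3
  rw [er, eU, eV] at a2
  rw [er] at a1
  rw [er, eN] at a3
  have hρ : 0 ≤ ρ := nonneg_of_mul_nonneg_right a1 hn
  refine ⟨hρ, ?_, ?_⟩
  · have hn2 : 0 < n ^ 2 := by positivity
    refine le_of_mul_le_mul_left ?_ hn2
    linarith
  · have hn4 : 0 < 4 * n ^ 4 := by positivity
    refine le_of_mul_le_mul_left ?_ hn4
    have b1 : ρ ^ 2 * n ^ 2 * (2 * n * sx) ^ 2 ≤ ρ ^ 2 * n ^ 2 * (x : ℝ) ^ 2 :=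
      mul_le_mul_of_nonneg_left hx (by positivity)
    have b2 : ρ ^ 2 * n ^ 2 * (2 * n * sy) ^ 2 ≤ ρ ^ 2 * n ^ 2 * (y : ℝ) ^ 2 :=
      mul_le_mul_of_nonneg_left hy (by positivity)
    linarith

theorem iabs_cast (m : ℤ) : ((iabs m : ℤ) : ℝ) = |(m : ℝ)| := by
  unfold iabs
  split_ifs with h
  · rw [abs_of_nonneg (by exact_mod_cast h)]
  · push Not at h
    rw [abs_of_neg (by exact_mod_cast h)]
    push_cast
    rfl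

theorem nr_pos_right (X Y : ℝ) (h : 0 < Y) : 0 < nr X Y := by
  unfold nr
  apply Real.sqrt_pos.2
  positivity

/-! ### good cells -/

/-- the inequality holds on the cell -/
def Good (n f p2 p3 lo hi be r0 r1 : ℝ) (X0 X1 Y0 Y1 A0 A1 E0 E1 : ℤ) : Prop :=
  ∀ x0 y0 a d : ℝ, (X0 : ℝ) ≤ n * x0 → n * x0 ≤ X1 → (Y0 : ℝ) ≤ n * y0 → n * y0 ≤ Y1 →
    (A0 : ℝ) ≤ n * a → n * a ≤ A1 → (E0 : ℝ) ≤ n * d → n * d ≤ E1 →
    0 ≤ x0 → x0 ≤ 1 / 2 → 0 ≤ y0 → y0 < 1 / 2 → r0 ≤ n ^ 2 * (x0 ^ 2 + 3 * y0 ^ 2) →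
    n ^ 2 * (x0 ^ 2 + 3 * y0 ^ 2) ≤ r1 →
    ∀ c h : ℝ, lo ≤ c → c ≤ hi → |h| ≤ be → ∀ b g : ℝ, Dom b g (x0 + a) (y0 + d) →
      Ineq f p2 p3 c h x0 y0 b g (x0 + a) (y0 + d)

theorem leafC_sound (P : Par) (n f p2 p3 lo hi be r0 r1 : ℝ) (hn : 0 < n) (hf : 0 ≤ f)
    (hp2 : 0 < p2) (hp3 : 0 < p3) (eN : (P.N : ℝ) = n) (eF : (P.F : ℝ) = n * f)
    (eP2 : (P.P2 : ℝ) = n * p2) (eP3 : (P.P3 : ℝ) = n * p3) (elo : (P.lo : ℝ) = n * lo)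
    (ehi : (P.hi : ℝ) = n * hi) (ebe : (P.be : ℝ) = n * be) (D : DC)
    (X0 X1 Y0 Y1 A0 A1 E0 E1 : ℤ) (hl : leafC P D X0 X1 Y0 Y1 A0 A1 E0 E1 = true) :
    Good n f p2 p3 lo hi be r0 r1 X0 X1 Y0 Y1 A0 A1 E0 E1 := by
  intro x0 y0 a d hx0 hx1 hy0 hy1 ha0 ha1 hd0 hd1 px qx py qy _ _ c h hc1 hc2 hh b g hDom
  simp only [leafC, Bool.and_eq_true] at hl
  obtain ⟨c1, c2, c3, c4, c5⟩ := hl
  have hd : ∀ z : ℤ, (z : ℝ) = n * ((z : ℝ) / n) := fun z => by field_simp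
  have s1 : (2 * n * (1 / 2 + x0)) ^ 2 ≤ ((P.N + 2 * X1 : ℤ) : ℝ) ^ 2 := by
    push_cast
    rw [eN]
    apply pow_le_pow_left₀ (by positivity)
    linarith
  have s2 : (2 * n * (1 / 2 + y0)) ^ 2 ≤ ((P.N + 2 * Y1 : ℤ) : ℝ) ^ 2 := by
    push_cast
    rw [eN]
    apply pow_le_pow_left₀ (by positivity)
    linarith
  have s3 : (2 * n * (1 / 2 - x0)) ^ 2 ≤ ((P.N - 2 * X0 : ℤ) : ℝ) ^ 2 := by
    push_cast
    rw [eN]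
    apply pow_le_pow_left₀ (mul_nonneg (by positivity) (by linarith))
    linarith
  have s4 : (2 * n * (1 / 2 - y0)) ^ 2 ≤ ((P.N - 2 * Y0 : ℤ) : ℝ) ^ 2 := by
    push_cast
    rw [eN]
    apply pow_le_pow_left₀ (mul_nonneg (by positivity) (by linarith))
    linarith
  have s5 : (2 * n * (-1 / 2 + x0)) ^ 2 ≤ ((P.N - 2 * X0 : ℤ) : ℝ) ^ 2 := by
    have e : (2 * n * (-1 / 2 + x0)) ^ 2 = (2 * n * (1 / 2 - x0)) ^ 2 := by ring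
    rw [e]; exact s3
  have s6 : (2 * n * (-1 / 2 - x0)) ^ 2 ≤ ((P.N + 2 * X1 : ℤ) : ℝ) ^ 2 := by
    have e : (2 * n * (-1 / 2 - x0)) ^ 2 = (2 * n * (1 / 2 + x0)) ^ 2 := by ring
    rw [e]; exact s1
  obtain ⟨p1, n1, k1⟩ := ed_sound _ _ _ _ _ _ c1 n (D.r1 / n) (D.U1 / n) (D.V1 / n) _ _ hn eN
    (hd _) (hd _) (hd _) s1 s2
  obtain ⟨p2', n2, k2⟩ := ed_sound _ _ _ _ _ _ c2 n (D.r2 / n) (D.U2 / n) (D.V2 / n) _ _ hn eN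
    (hd _) (hd _) (hd _) s3 s4
  obtain ⟨p3', n3, k3⟩ := ed_sound _ _ _ _ _ _ c3 n (D.r3 / n) (D.U3 / n) (D.V3 / n) _ _ hn eN
    (hd _) (hd _) (hd _) s5 s2
  obtain ⟨p4, n4, k4⟩ := ed_sound _ _ _ _ _ _ c4 n (D.r4 / n) (D.U4 / n) (D.V4 / n) _ _ hn eN
    (hd _) (hd _) (hd _) s6 s4
  have hU : ∀ r U V : ℝ, 0 ≤ r → (r + U) ^ 2 + 3 * V ^ 2 ≤ r ^ 2 → U ≤ 0 := by
    intro r U V hr hh
    by_contra hcon
    push Not at hcon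
    nlinarith [sq_nonneg V, mul_nonneg hr hcon.le, mul_pos hcon hcon]
  refine Phi_le (D.r1 / n) (D.r2 / n) (D.r3 / n) (D.r4 / n) (D.U1 / n) (D.U2 / n) (D.U3 / n)
    (D.U4 / n) (D.V1 / n) (D.V2 / n) (D.V3 / n) (D.V4 / n) |(D.m1 : ℝ) / n| |(D.m2 : ℝ) / n|
    (D.m1 / n) (D.m2 / n) f p2 p3 c h b g x0 y0 a d (nr_pos_right _ _ (by linarith))
    (nr_pos_right _ _ (by linarith)) (nr_pos_right _ _ (by linarith))
    (nr_pos_right _ _ (by linarith)) p1 p2' p3' p4 k1 k2 k3 k4 n1 n2 n3 n4 le_rfl le_rfl hDom ?_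
  have hv := vw_vertices _ _ _ _ _ _ _ _ _ _ _ _ _ _ _ _ _ _ _ _ c5
  refine box16 (D.U1 / n) (D.U2 / n) (D.U3 / n) (D.U4 / n) (D.V1 / n) (D.V2 / n) (D.V3 / n)
    (D.V4 / n) |(D.m1 : ℝ) / n| |(D.m2 : ℝ) / n| (D.m1 / n) (D.m2 / n) f p2 p3 c h b g hf ?_
    (X0 / n) (X1 / n) (Y0 / n) (Y1 / n) (A0 / n) (A1 / n) (E0 / n) (E1 / n) ?_ x0 y0 a d
    ((div_le_iff₀' hn).2 hx0) ((le_div_iff₀' hn).2 hx1) ((div_le_iff₀' hn).2 hy0)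
    ((le_div_iff₀' hn).2 hy1) ((div_le_iff₀' hn).2 ha0) ((le_div_iff₀' hn).2 ha1)
    ((div_le_iff₀' hn).2 hd0) ((le_div_iff₀' hn).2 hd1)
  · have := hU _ _ _ p1 n1
    have := hU _ _ _ p2' n2
    have := hU _ _ _ p3' n3
    have := hU _ _ _ p4 n4
    linarith
  · have key : ∀ X Y A E : ℤ, (X = X0 ∨ X = X1) → (Y = Y0 ∨ Y = Y1) → (A = A0 ∨ A = A1) →
        (E = E0 ∨ E = E1) → 0 ≤ Phi (D.U1 / n) (D.U2 / n) (D.U3 / n) (D.U4 / n) (D.V1 / n)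
          (D.V2 / n) (D.V3 / n) (D.V4 / n) |(D.m1 : ℝ) / n| |(D.m2 : ℝ) / n| (D.m1 / n)
          (D.m2 / n) f p2 p3 c h b g (X / n) (Y / n) (A / n) (E / n) := by
      intro X Y A E hX hY hA hE
      refine vertex_sound P D.U1 D.U2 D.U3 D.U4 D.V1 D.V2 D.V3 D.V4 _ D.m1 D.m2 X Y A E
        (hv X Y A E hX hY hA hE) n f p2 p3 lo hi be _ _ _ _ _ _ _ _ _ _ _ _ _ _ _ _ hn eN eF eP2
        eP3 elo ehi ebe (hd _) (hd _) (hd _) (hd _) (hd _) (hd _) (hd _) (hd _) ?_ (hd _) (hd _)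
        (hd _) (hd _) (hd _) (hd _) hp2 hp3 (abs_nonneg _) (abs_nonneg _) c h b g hc1 hc2 hh
      push_cast
      rw [iabs_cast, iabs_cast, abs_div, abs_div, abs_of_pos hn]
      field_simp
    intro X Y A E hX hY hA hE
    rcases hX with rfl | rfl <;> rcases hY with rfl | rfl <;> rcases hA with rfl | rfl <;>
      rcases hE with rfl | rfl <;> apply key <;> simp

/-- soundness of the tree -/
theorem chk_sound {β : Type} (P : Par) (LB : β → ℤ → ℤ → ℤ → ℤ → ℤ → ℤ → ℤ → ℤ → Bool)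
    (n f p2 p3 lo hi be : ℝ) (hn : 0 < n) (hf : 0 ≤ f)
    (hp2 : 0 < p2) (hp3 : 0 < p3) (eN : (P.N : ℝ) = n) (eF : (P.F : ℝ) = n * f)
    (eP2 : (P.P2 : ℝ) = n * p2) (eP3 : (P.P3 : ℝ) = n * p3) (elo : (P.lo : ℝ) = n * lo)
    (ehi : (P.hi : ℝ) = n * hi) (ebe : (P.be : ℝ) = n * be)
    (hLB : ∀ (D : β) (X0 X1 Y0 Y1 A0 A1 E0 E1 : ℤ), LB D X0 X1 Y0 Y1 A0 A1 E0 E1 = true →
      Good n f p2 p3 lo hi be P.R0 P.R1 X0 X1 Y0 Y1 A0 A1 E0 E1) (t : T β) :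
    ∀ X0 X1 Y0 Y1 A0 A1 E0 E1 : ℤ, chk P LB t X0 X1 Y0 Y1 A0 A1 E0 E1 = true →
      Good n f p2 p3 lo hi be P.R0 P.R1 X0 X1 Y0 Y1 A0 A1 E0 E1 := by
  induction t with
  | o =>
    intro X0 X1 Y0 Y1 A0 A1 E0 E1 h x0 y0 a d hx0 hx1 hy0 hy1 _ _ _ _ px _ py _ hr0 hr1
    exfalso
    simp only [chk, outC, Bool.and_eq_true, Bool.or_eq_true, decide_eq_true_eq] at h
    rcases h with ⟨i1, i2, i3⟩ | i3
    · have j1 : (0 : ℝ) ≤ X0 := by exact_mod_cast i1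
      have j2 : (0 : ℝ) ≤ Y0 := by exact_mod_cast i2
      have j3 : (P.R1 : ℝ) < X0 * X0 + 3 * (Y0 * Y0) := by exact_mod_cast i3
      have k1 : (X0 : ℝ) * X0 ≤ (n * x0) * (n * x0) := mul_le_mul hx0 hx0 j1 (by positivity)
      have k2 : (Y0 : ℝ) * Y0 ≤ (n * y0) * (n * y0) := mul_le_mul hy0 hy0 j2 (by positivity)
      nlinarith
    · have j3 : (X1 : ℝ) * X1 + 3 * (Y1 * Y1) < P.R0 := by exact_mod_cast i3
      have z1 : 0 ≤ n * x0 := by positivity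
      have z2 : 0 ≤ n * y0 := by positivity
      have k1 : (n * x0) * (n * x0) ≤ (X1 : ℝ) * X1 := mul_le_mul hx1 hx1 z1 (z1.trans hx1)
      have k2 : (n * y0) * (n * y0) ≤ (Y1 : ℝ) * Y1 := mul_le_mul hy1 hy1 z2 (z2.trans hy1)
      nlinarith
  | c D =>
    intro X0 X1 Y0 Y1 A0 A1 E0 E1 h
    exact leafC_sound P n f p2 p3 lo hi be _ _ hn hf hp2 hp3 eN eF eP2 eP3 elo ehi ebe D
      X0 X1 Y0 Y1 A0 A1 E0 E1 h
  | b D =>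
    intro X0 X1 Y0 Y1 A0 A1 E0 E1 h
    exact hLB D X0 X1 Y0 Y1 A0 A1 E0 E1 h
  | x m s t ihs iht =>
    intro X0 X1 Y0 Y1 A0 A1 E0 E1 h x0 y0 a d hx0 hx1 hy0 hy1 ha0 ha1 hd0 hd1 px qx py qy hr0 hr1
    simp only [chk, Bool.and_eq_true] at h
    rcases le_total (n * x0) (m : ℝ) with hm | hm
    · exact ihs X0 m Y0 Y1 A0 A1 E0 E1 h.1 x0 y0 a d hx0 hm hy0 hy1 ha0 ha1 hd0 hd1 px qx py qy hr0 hr1
    · exact iht m X1 Y0 Y1 A0 A1 E0 E1 h.2 x0 y0 a d hm hx1 hy0 hy1 ha0 ha1 hd0 hd1 px qx py qy hr0 hr1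
  | y m s t ihs iht =>
    intro X0 X1 Y0 Y1 A0 A1 E0 E1 h x0 y0 a d hx0 hx1 hy0 hy1 ha0 ha1 hd0 hd1 px qx py qy hr0 hr1
    simp only [chk, Bool.and_eq_true] at h
    rcases le_total (n * y0) (m : ℝ) with hm | hm
    · exact ihs X0 X1 Y0 m A0 A1 E0 E1 h.1 x0 y0 a d hx0 hx1 hy0 hm ha0 ha1 hd0 hd1 px qx py qy hr0 hr1
    · exact iht X0 X1 m Y1 A0 A1 E0 E1 h.2 x0 y0 a d hx0 hx1 hm hy1 ha0 ha1 hd0 hd1 px qx py qy hr0 hr1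
  | a m s t ihs iht =>
    intro X0 X1 Y0 Y1 A0 A1 E0 E1 h x0 y0 a d hx0 hx1 hy0 hy1 ha0 ha1 hd0 hd1 px qx py qy hr0 hr1
    simp only [chk, Bool.and_eq_true] at h
    rcases le_total (n * a) (m : ℝ) with hm | hm
    · exact ihs X0 X1 Y0 Y1 A0 m E0 E1 h.1 x0 y0 a d hx0 hx1 hy0 hy1 ha0 hm hd0 hd1 px qx py qy hr0 hr1
    · exact iht X0 X1 Y0 Y1 m A1 E0 E1 h.2 x0 y0 a d hx0 hx1 hy0 hy1 hm ha1 hd0 hd1 px qx py qy hr0 hr1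
  | d m s t ihs iht =>
    intro X0 X1 Y0 Y1 A0 A1 E0 E1 h x0 y0 a d hx0 hx1 hy0 hy1 ha0 ha1 hd0 hd1 px qx py qy hr0 hr1
    simp only [chk, Bool.and_eq_true] at h
    rcases le_total (n * d) (m : ℝ) with hm | hm
    · exact ihs X0 X1 Y0 Y1 A0 A1 E0 m h.1 x0 y0 a d hx0 hx1 hy0 hy1 ha0 ha1 hd0 hm px qx py qy hr0 hr1
    · exact iht X0 X1 Y0 Y1 A0 A1 m E1 h.2 x0 y0 a d hx0 hx1 hy0 hy1 ha0 ha1 hm hd1 px qx py qy hr0 hr1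

end Pool.Agent.Helper88.P4
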