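import Mathlib

/-!
# SHARP (MP_b21509_co), link (4): the pointwise local lemma (dead zone form), definitions

Rational coordinates: `z = x + i √3 y`, `z₀ = x0 + i √3 y0`, `b₂ = b`, `b₃ = √3 g`; a vector `(p, q)` stands for `p + i √3 q`,
its length is `√(p² + 3 q²)`.  The four edges are `e = m₁ ± z`, `m₂ ± z` with `m₁ = (1/2 + b/2 + 3g, 1/2 - b/2 + g/4)`,
`m₂ = (-1/2 - b/2 + 3g, 1/2 - b/2 - g/4)` (gauge `q = 2`), the base edges are `D = d₁ ± z₀`, `d₂ ± z₀` with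
`d₁ = (1/2, 1/2)`, `d₂ = (-1/2, 1/2)`.
-/

set_option autoImplicit false

namespace Pool.Agent.Helper88.P4

/-- the norm in the rational coordinates -/
noncomputable def nr (X Y : ℝ) : ℝ := Real.sqrt (X ^ 2 + 3 * Y ^ 2)

/-- the Bregman term of one edge: `|e| - ⟨D, e⟩ / |D|` -/
noncomputable def rk (Dx Dy ex ey : ℝ) : ℝ := nr ex ey - (Dx * ex + 3 * (Dy * ey)) / nr Dx Dy

/-- the sum of the four Bregman terms with base `(0, z₀)` at the point `(b₂, b₃, z)` -/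
noncomputable def RS (x0 y0 b g x y : ℝ) : ℝ :=
  rk (1 / 2 + x0) (1 / 2 + y0) (1 / 2 + b / 2 + 3 * g + x) (1 / 2 - b / 2 + g / 4 + y) +
  rk (1 / 2 - x0) (1 / 2 - y0) (1 / 2 + b / 2 + 3 * g - x) (1 / 2 - b / 2 + g / 4 - y) +
  rk (-1 / 2 + x0) (1 / 2 + y0) (-1 / 2 - b / 2 + 3 * g + x) (1 / 2 - b / 2 - g / 4 + y) +
  rk (-1 / 2 - x0) (1 / 2 - y0) (-1 / 2 - b / 2 + 3 * g - x) (1 / 2 - b / 2 - g / 4 - y)

/-- the domain: `z = X a + V c`, `|X| ≤ 1/2`, `|V| ≤ 1`, `|b| ≤ 1` -/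
def Dom (b g x y : ℝ) : Prop :=
  b ^ 2 + 3 * g ^ 2 ≤ 1 ∧ ∃ X V : ℝ, |X| ≤ 1 / 2 ∧ |V| ≤ 1 ∧ x = X * (1 + b) + 3 * V * g ∧
    y = (X * g + V * (1 - b)) / 2

/-- the inequality at a point, with the price centred at `(c, h)` (`c = b₂₀`, `√3 h = b₃₀`) -/
def Ineq (f P2 P3 c h x0 y0 b g x y : ℝ) : Prop :=
  3 / 2 * f * ((x - x0) ^ 2 + (y - y0) ^ 2) ≤
    RS x0 y0 b g x y + P2 * (b - c) ^ 2 + 3 * P3 * (g - h) ^ 2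

/-- LINK (4), dead zone form: `r ≤ |z₀| ≤ R`, every price centre of the box `[lo, hi] × [-be, be]` -/
def P4D (f P2 P3 lo hi be r R : ℝ) : Prop :=
  ∀ x0 y0 : ℝ, r ^ 2 ≤ x0 ^ 2 + 3 * y0 ^ 2 → x0 ^ 2 + 3 * y0 ^ 2 ≤ R ^ 2 →
  ∀ c h : ℝ, lo ≤ c → c ≤ hi → |h| ≤ be →
  ∀ b g x y : ℝ, Dom b g x y → Ineq f P2 P3 c h x0 y0 b g x y

/-- the statement on the quarter `x0, y0 ≥ 0` -/
def P4Q (f P2 P3 lo hi be r R : ℝ) : Prop :=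
  ∀ x0 y0 : ℝ, 0 ≤ x0 → 0 ≤ y0 → r ^ 2 ≤ x0 ^ 2 + 3 * y0 ^ 2 → x0 ^ 2 + 3 * y0 ^ 2 ≤ R ^ 2 →
  ∀ c h : ℝ, lo ≤ c → c ≤ hi → |h| ≤ be →
  ∀ b g x y : ℝ, Dom b g x y → Ineq f P2 P3 c h x0 y0 b g x y

/-! ### elementary facts -/

theorem le_of_sq {a b : ℝ} (h : a ^ 2 ≤ b ^ 2) (hb : 0 ≤ b) : a ≤ b := (abs_le_of_sq_le_sq' h hb).2

theorem nr_nn (X Y : ℝ) : 0 ≤ nr X Y := Real.sqrt_nonneg _

theorem nr_sq (X Y : ℝ) : nr X Y ^ 2 = X ^ 2 + 3 * Y ^ 2 := Real.sq_sqrt (by positivity)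

theorem nr_neg_left (X Y : ℝ) : nr (-X) Y = nr X Y := by
  unfold nr; rw [neg_sq]

theorem nr_neg_right (X Y : ℝ) : nr X (-Y) = nr X Y := by
  unfold nr; rw [neg_sq]

/-- Cauchy-Schwarz with a rotation: `c (D·e) + 3 s (D ×' e) ≤ |D| |e|` for `c² + 3 s² ≤ 1` -/
theorem rot_le (Dx Dy ex ey c s : ℝ) (h : c ^ 2 + 3 * s ^ 2 ≤ 1) :
    c * (Dx * ex + 3 * (Dy * ey)) + 3 * s * (Dx * ey - Dy * ex) ≤ nr Dx Dy * nr ex ey := by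
  have h1 := nr_sq Dx Dy
  have h2 := nr_sq ex ey
  have h3 := nr_nn Dx Dy
  have h4 := nr_nn ex ey
  refine le_of_sq ?_ (mul_nonneg h3 h4)
  rw [mul_pow, h1, h2]
  have e1 : (c * (Dx * ex + 3 * (Dy * ey)) + 3 * s * (Dx * ey - Dy * ex)) ^ 2 ≤
      (c ^ 2 + 3 * s ^ 2) * ((Dx * ex + 3 * (Dy * ey)) ^ 2 + 3 * (Dx * ey - Dy * ex) ^ 2) := by
    nlinarith [sq_nonneg (c * (Dx * ey - Dy * ex) - s * (Dx * ex + 3 * (Dy * ey)))]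
  have e2 : (Dx * ex + 3 * (Dy * ey)) ^ 2 + 3 * (Dx * ey - Dy * ex) ^ 2 =
      (Dx ^ 2 + 3 * Dy ^ 2) * (ex ^ 2 + 3 * ey ^ 2) := by ring
  rw [e2] at e1
  have e3 : (c ^ 2 + 3 * s ^ 2) * ((Dx ^ 2 + 3 * Dy ^ 2) * (ex ^ 2 + 3 * ey ^ 2)) ≤
      1 * ((Dx ^ 2 + 3 * Dy ^ 2) * (ex ^ 2 + 3 * ey ^ 2)) :=
    mul_le_mul_of_nonneg_right h (by positivity)
  linarith

/-- the Bregman term, as a quotient -/
theorem rk_eq (Dx Dy ex ey : ℝ) (hD : 0 < nr Dx Dy) :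
    rk Dx Dy ex ey = (nr Dx Dy * nr ex ey - (Dx * ex + 3 * (Dy * ey))) / nr Dx Dy := by
  unfold rk
  field_simp

theorem num_nonneg (Dx Dy ex ey : ℝ) : 0 ≤ nr Dx Dy * nr ex ey - (Dx * ex + 3 * (Dy * ey)) := by
  have := rot_le Dx Dy ex ey 1 0 (by norm_num)
  linarith

theorem rk_nonneg (Dx Dy ex ey : ℝ) (hD : 0 < nr Dx Dy) : 0 ≤ rk Dx Dy ex ey := by
  rw [rk_eq Dx Dy ex ey hD]
  exact div_nonneg (num_nonneg _ _ _ _) hD.le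

/-- the rotation bound: `ρ |D| ≤ 1`, `(ρ + U)² + 3 V² ≤ ρ²` -/
theorem rk_ge (Dx Dy ex ey ρ U V : ℝ) (hD : 0 < nr Dx Dy) (hρ : 0 ≤ ρ)
    (hρD : ρ ^ 2 * (Dx ^ 2 + 3 * Dy ^ 2) ≤ 1) (hUV : (ρ + U) ^ 2 + 3 * V ^ 2 ≤ ρ ^ 2) :
    U * (Dx * ex + 3 * (Dy * ey)) + 3 * V * (Dx * ey - Dy * ex) ≤ rk Dx Dy ex ey := by
  have h0 := num_nonneg Dx Dy ex ey
  have h1 : ρ * nr Dx Dy ≤ 1 := by
    refine le_of_sq ?_ (by norm_num)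
    rw [mul_pow, nr_sq, one_pow]
    exact hρD
  have h2 : ρ * (nr Dx Dy * nr ex ey - (Dx * ex + 3 * (Dy * ey))) ≤ rk Dx Dy ex ey := by
    rw [rk_eq Dx Dy ex ey hD, le_div_iff₀ hD]
    calc ρ * (nr Dx Dy * nr ex ey - (Dx * ex + 3 * (Dy * ey))) * nr Dx Dy
        = (ρ * nr Dx Dy) * (nr Dx Dy * nr ex ey - (Dx * ex + 3 * (Dy * ey))) := by ring
      _ ≤ 1 * (nr Dx Dy * nr ex ey - (Dx * ex + 3 * (Dy * ey))) :=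
          mul_le_mul_of_nonneg_right h1 h0
      _ = _ := one_mul _
  refine le_trans ?_ h2
  rcases hρ.eq_or_lt with h | h
  · subst h
    have hU : U = 0 ∧ V = 0 := by
      constructor <;> nlinarith [sq_nonneg U, sq_nonneg V]
    rw [hU.1, hU.2]
    simp
  · have h3 := rot_le Dx Dy ex ey (1 + U / ρ) (V / ρ) (by
      have e : (1 + U / ρ) ^ 2 + 3 * (V / ρ) ^ 2 = ((ρ + U) ^ 2 + 3 * V ^ 2) / ρ ^ 2 := by
        field_simp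
      rw [e, div_le_one (by positivity)]
      exact hUV)
    have h4 := mul_le_mul_of_nonneg_left h3 h.le
    have e : ρ * ((1 + U / ρ) * (Dx * ex + 3 * (Dy * ey)) + 3 * (V / ρ) * (Dx * ey - Dy * ex)) =
      ρ * (Dx * ex + 3 * (Dy * ey)) + (U * (Dx * ex + 3 * (Dy * ey)) + 3 * V * (Dx * ey - Dy * ex)) := by
      field_simp
      ring
    rw [e] at h4
    linarith

end Pool.Agent.Helper88.P4
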