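import Pool.Agent.Helper88.SH.P4

/-!
# SHARP (MP_b21509_co), link (4): test (C), the integer checker and its soundness

A cell is a box of `(x0, y0, a, d)`, `z = z₀ + (a, d)`.  Data of a cell: `ρ_k ≤ 1/|D_k|`, `U_k = ρ_k (c_k - 1)`, `V_k = ρ_k s_k` with
`c_k² + 3 s_k² ≤ 1`, and two multipliers `l_i`, `|m_i| ≤ l_i` for the two domain constraints.  For fixed `b, g` the bound is concave in
every one of the four variables, so the `16` vertices suffice; at a vertex `b, g` are eliminated.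
-/

set_option autoImplicit false

namespace Pool.Agent.Helper88.P4

/-! ### the real function -/

/-- the part of the bound without `b, g` -/
noncomputable def Af (U1 U2 U3 U4 V1 V2 V3 V4 l1 l2 m1 m2 f x0 y0 a d : ℝ) : ℝ :=
  (U1 + U2 + U3 + U4) * (1 + x0 * (x0 + a) + 3 * (y0 * (y0 + d))) +
  ((U1 - U2) - (U3 - U4)) / 2 * (x0 + (x0 + a)) + 3 / 2 * ((U1 - U2) + (U3 - U4)) * (y0 + (y0 + d)) +
  3 / 2 * ((V1 - V2) - (V3 - V4)) * d - 3 / 2 * ((V1 - V2) + (V3 - V4)) * a +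
  3 * (V1 + V2 + V3 + V4) * (x0 * (y0 + d) - y0 * (x0 + a)) - 3 / 2 * f * (a ^ 2 + d ^ 2) -
  (l1 + l2) / 2 + m1 * (x0 + a) + m2 * (y0 + d)

/-- the coefficient of `b` -/
noncomputable def Gf (U1 U2 U3 U4 V1 V2 V3 V4 m1 m2 x0 y0 a d : ℝ) : ℝ :=
  -(U1 + U2 + U3 + U4) / 2 + (U1 - U2) / 2 * (x0 - 3 * y0) - (U3 - U4) / 2 * (x0 + 3 * y0) +
  3 / 2 * (-(V1 + V2) - (V1 - V2) * (x0 + y0) + (V3 + V4) + (V3 - V4) * (y0 - x0)) -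
  m1 * (x0 + a) + m2 * (y0 + d)

/-- the coefficient of `g` -/
noncomputable def Hf (U1 U2 U3 U4 V1 V2 V3 V4 m1 m2 x0 y0 a d : ℝ) : ℝ :=
  15 / 8 * ((U1 + U2) - (U3 + U4)) + (U1 - U2) * (3 * x0 + 3 / 4 * y0) +
  (U3 - U4) * (3 * x0 - 3 / 4 * y0) + 3 * (-(11 / 8) * (V1 + V2 + V3 + V4) +
  (V1 - V2) * (x0 / 4 - 3 * y0) - (V3 - V4) * (x0 / 4 + 3 * y0)) - 6 * m1 * (y0 + d) -
  m2 * (x0 + a) / 2

/-- the bound at a point -/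
noncomputable def Phi (U1 U2 U3 U4 V1 V2 V3 V4 l1 l2 m1 m2 f P2 P3 c h b g x0 y0 a d : ℝ) : ℝ :=
  Af U1 U2 U3 U4 V1 V2 V3 V4 l1 l2 m1 m2 f x0 y0 a d +
  Gf U1 U2 U3 U4 V1 V2 V3 V4 m1 m2 x0 y0 a d * b +
  Hf U1 U2 U3 U4 V1 V2 V3 V4 m1 m2 x0 y0 a d * g +
  (l1 + l2) / 2 * b ^ 2 + 3 * ((l1 + l2) / 2) * g ^ 2 + P2 * (b - c) ^ 2 + 3 * P3 * (g - h) ^ 2

/-- `Phi` is below the function -/
theorem Phi_le (r1 r2 r3 r4 U1 U2 U3 U4 V1 V2 V3 V4 l1 l2 m1 m2 f P2 P3 c h b g x0 y0 a d : ℝ)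
    (hD1 : 0 < nr (1 / 2 + x0) (1 / 2 + y0)) (hD2 : 0 < nr (1 / 2 - x0) (1 / 2 - y0))
    (hD3 : 0 < nr (-1 / 2 + x0) (1 / 2 + y0)) (hD4 : 0 < nr (-1 / 2 - x0) (1 / 2 - y0))
    (hr1 : 0 ≤ r1) (hr2 : 0 ≤ r2) (hr3 : 0 ≤ r3) (hr4 : 0 ≤ r4)
    (k1 : r1 ^ 2 * ((1 / 2 + x0) ^ 2 + 3 * (1 / 2 + y0) ^ 2) ≤ 1)
    (k2 : r2 ^ 2 * ((1 / 2 - x0) ^ 2 + 3 * (1 / 2 - y0) ^ 2) ≤ 1)
    (k3 : r3 ^ 2 * ((-1 / 2 + x0) ^ 2 + 3 * (1 / 2 + y0) ^ 2) ≤ 1)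
    (k4 : r4 ^ 2 * ((-1 / 2 - x0) ^ 2 + 3 * (1 / 2 - y0) ^ 2) ≤ 1)
    (n1 : (r1 + U1) ^ 2 + 3 * V1 ^ 2 ≤ r1 ^ 2) (n2 : (r2 + U2) ^ 2 + 3 * V2 ^ 2 ≤ r2 ^ 2)
    (n3 : (r3 + U3) ^ 2 + 3 * V3 ^ 2 ≤ r3 ^ 2) (n4 : (r4 + U4) ^ 2 + 3 * V4 ^ 2 ≤ r4 ^ 2)
    (hl1 : |m1| ≤ l1) (hl2 : |m2| ≤ l2) (hDom : Dom b g (x0 + a) (y0 + d))
    (h0 : 0 ≤ Phi U1 U2 U3 U4 V1 V2 V3 V4 l1 l2 m1 m2 f P2 P3 c h b g x0 y0 a d) :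
    Ineq f P2 P3 c h x0 y0 b g (x0 + a) (y0 + d) := by
  obtain ⟨hb, X, V, hX, hV, hx, hy⟩ := hDom
  have g1 := rk_ge (1 / 2 + x0) (1 / 2 + y0) (1 / 2 + b / 2 + 3 * g + (x0 + a))
    (1 / 2 - b / 2 + g / 4 + (y0 + d)) r1 U1 V1 hD1 hr1 k1 n1
  have g2 := rk_ge (1 / 2 - x0) (1 / 2 - y0) (1 / 2 + b / 2 + 3 * g - (x0 + a))
    (1 / 2 - b / 2 + g / 4 - (y0 + d)) r2 U2 V2 hD2 hr2 k2 n2
  have g3 := rk_ge (-1 / 2 + x0) (1 / 2 + y0) (-1 / 2 - b / 2 + 3 * g + (x0 + a))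
    (1 / 2 - b / 2 - g / 4 + (y0 + d)) r3 U3 V3 hD3 hr3 k3 n3
  have g4 := rk_ge (-1 / 2 - x0) (1 / 2 - y0) (-1 / 2 - b / 2 + 3 * g - (x0 + a))
    (1 / 2 - b / 2 - g / 4 - (y0 + d)) r4 U4 V4 hD4 hr4 k4 n4
  have hq : 0 ≤ 1 - b ^ 2 - 3 * g ^ 2 := by linarith
  have t1 : (x0 + a) - b * (x0 + a) - 6 * (g * (y0 + d)) = X * (1 - b ^ 2 - 3 * g ^ 2) := by
    rw [hx, hy]; ring
  have t2 : (y0 + d) + b * (y0 + d) - g * (x0 + a) / 2 = V * (1 - b ^ 2 - 3 * g ^ 2) / 2 := by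
    rw [hx, hy]; ring
  have w1 : m1 * ((x0 + a) - b * (x0 + a) - 6 * (g * (y0 + d))) ≤
      l1 * ((1 - b ^ 2 - 3 * g ^ 2) / 2) := by
    rw [t1]
    have e1 : m1 * X ≤ l1 * (1 / 2) := by
      calc m1 * X ≤ |m1 * X| := le_abs_self _
        _ = |m1| * |X| := abs_mul _ _
        _ ≤ l1 * (1 / 2) := mul_le_mul hl1 hX (abs_nonneg _) ((abs_nonneg _).trans hl1)
    have := mul_le_mul_of_nonneg_right e1 hq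
    linarith
  have w2 : m2 * ((y0 + d) + b * (y0 + d) - g * (x0 + a) / 2) ≤
      l2 * ((1 - b ^ 2 - 3 * g ^ 2) / 2) := by
    rw [t2]
    have e1 : m2 * V ≤ l2 * 1 := by
      calc m2 * V ≤ |m2 * V| := le_abs_self _
        _ = |m2| * |V| := abs_mul _ _
        _ ≤ l2 * 1 := mul_le_mul hl2 hV (abs_nonneg _) ((abs_nonneg _).trans hl2)
    have := mul_le_mul_of_nonneg_right e1 hq
    linarith
  unfold Ineq RS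
  have key : Phi U1 U2 U3 U4 V1 V2 V3 V4 l1 l2 m1 m2 f P2 P3 c h b g x0 y0 a d =
      (U1 * ((1 / 2 + x0) * (1 / 2 + b / 2 + 3 * g + (x0 + a)) +
          3 * ((1 / 2 + y0) * (1 / 2 - b / 2 + g / 4 + (y0 + d)))) +
        3 * V1 * ((1 / 2 + x0) * (1 / 2 - b / 2 + g / 4 + (y0 + d)) -
          (1 / 2 + y0) * (1 / 2 + b / 2 + 3 * g + (x0 + a)))) +
      (U2 * ((1 / 2 - x0) * (1 / 2 + b / 2 + 3 * g - (x0 + a)) +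
          3 * ((1 / 2 - y0) * (1 / 2 - b / 2 + g / 4 - (y0 + d)))) +
        3 * V2 * ((1 / 2 - x0) * (1 / 2 - b / 2 + g / 4 - (y0 + d)) -
          (1 / 2 - y0) * (1 / 2 + b / 2 + 3 * g - (x0 + a)))) +
      (U3 * ((-1 / 2 + x0) * (-1 / 2 - b / 2 + 3 * g + (x0 + a)) +
          3 * ((1 / 2 + y0) * (1 / 2 - b / 2 - g / 4 + (y0 + d)))) +
        3 * V3 * ((-1 / 2 + x0) * (1 / 2 - b / 2 - g / 4 + (y0 + d)) -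
          (1 / 2 + y0) * (-1 / 2 - b / 2 + 3 * g + (x0 + a)))) +
      (U4 * ((-1 / 2 - x0) * (-1 / 2 - b / 2 + 3 * g - (x0 + a)) +
          3 * ((1 / 2 - y0) * (1 / 2 - b / 2 - g / 4 - (y0 + d)))) +
        3 * V4 * ((-1 / 2 - x0) * (1 / 2 - b / 2 - g / 4 - (y0 + d)) -
          (1 / 2 - y0) * (-1 / 2 - b / 2 + 3 * g - (x0 + a)))) -
      l1 * ((1 - b ^ 2 - 3 * g ^ 2) / 2) + m1 * ((x0 + a) - b * (x0 + a) - 6 * (g * (y0 + d))) -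
      l2 * ((1 - b ^ 2 - 3 * g ^ 2) / 2) + m2 * ((y0 + d) + b * (y0 + d) - g * (x0 + a) / 2) -
      3 / 2 * f * (a ^ 2 + d ^ 2) + P2 * (b - c) ^ 2 + 3 * P3 * (g - h) ^ 2 := by
    unfold Phi Af Gf Hf
    ring
  rw [key] at h0
  have e : 3 / 2 * f * ((x0 + a - x0) ^ 2 + (y0 + d - y0) ^ 2) = 3 / 2 * f * (a ^ 2 + d ^ 2) := by
    ring
  rw [e]
  linarith

/-- elimination of `b, g` at a vertex -/
theorem elim (A G H a2 a3 P2 P3 lo hi be c h b g : ℝ) (ha2 : 0 < a2) (ha3 : 0 < a3)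
    (hP2 : 0 ≤ P2) (hP3 : 0 ≤ P3) (h2 : P2 ≤ a2) (h3 : 3 * P3 ≤ a3) (hc1 : lo ≤ c) (hc2 : c ≤ hi)
    (hh : |h| ≤ be) (K : ℝ) (hK1 : 0 ≤ G → K = lo * G) (hK2 : G < 0 → K = hi * G)
    (hm : a3 * (G ^ 2 - 4 * P2 * K) + a2 * (H ^ 2 + 12 * P3 * be * |H|) ≤ 4 * a2 * a3 * A) :
    0 ≤ A + G * b + H * g + (a2 - P2) * b ^ 2 + (a3 - 3 * P3) * g ^ 2 + P2 * (b - c) ^ 2 +
      3 * P3 * (g - h) ^ 2 := by
  have hcK : K ≤ c * G := by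
    rcases le_or_gt 0 G with hG | hG
    · rw [hK1 hG]; exact mul_le_mul_of_nonneg_right hc1 hG
    · rw [hK2 hG]; exact mul_le_mul_of_nonpos_right hc2 hG.le
  have hhH : -(be * |H|) ≤ h * H := by
    have : |h * H| ≤ be * |H| := by
      rw [abs_mul]; exact mul_le_mul_of_nonneg_right hh (abs_nonneg _)
    exact (abs_le.1 this).1
  have e1 : -G ^ 2 + 4 * P2 * K ≤
      4 * a2 * (G * b + (a2 - P2) * b ^ 2 + P2 * (b - c) ^ 2) := by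
    have q1 : 0 ≤ (2 * a2 * b + G - 2 * P2 * c) ^ 2 := sq_nonneg _
    have q2 : 0 ≤ P2 * c ^ 2 * (a2 - P2) :=
      mul_nonneg (mul_nonneg hP2 (sq_nonneg _)) (by linarith)
    have q3 : P2 * K ≤ P2 * (c * G) := mul_le_mul_of_nonneg_left hcK hP2
    nlinarith
  have e2 : -H ^ 2 - 12 * P3 * be * |H| ≤
      4 * a3 * (H * g + (a3 - 3 * P3) * g ^ 2 + 3 * P3 * (g - h) ^ 2) := by
    have q1 : 0 ≤ (2 * a3 * g + H - 6 * P3 * h) ^ 2 := sq_nonneg _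
    have q2 : 0 ≤ 3 * P3 * h ^ 2 * (a3 - 3 * P3) :=
      mul_nonneg (mul_nonneg (by positivity) (sq_nonneg _)) (by linarith)
    have q3 : P3 * -(be * |H|) ≤ P3 * (h * H) := mul_le_mul_of_nonneg_left hhH hP3
    nlinarith
  have f1 := mul_le_mul_of_nonneg_left e1 ha3.le
  have f2 := mul_le_mul_of_nonneg_left e2 ha2.le
  have f3 : 0 ≤ 4 * a2 * a3 * (A + G * b + H * g + (a2 - P2) * b ^ 2 + (a3 - 3 * P3) * g ^ 2 +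
      P2 * (b - c) ^ 2 + 3 * P3 * (g - h) ^ 2) := by nlinarith
  exact nonneg_of_mul_nonneg_right f3 (by positivity)

/-- concave in one variable -/
theorem conc (F : ℝ → ℝ) (k t0 t1 : ℝ) (hk : 0 ≤ k)
    (hF : ∀ t, (t1 - t0) * F t = (t1 - t) * F t0 + (t - t0) * F t1 +
      k * ((t1 - t0) * ((t - t0) * (t1 - t)))) (h0 : 0 ≤ F t0) (h1 : 0 ≤ F t1) (t : ℝ)
    (ht0 : t0 ≤ t) (ht1 : t ≤ t1) : 0 ≤ F t := by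
  rcases (ht0.trans ht1).eq_or_lt with h | h
  · have : t = t0 := le_antisymm (by linarith) ht0
    rw [this]; exact h0
  · have e1 : 0 ≤ (t1 - t0) * F t := by
      rw [hF t]
      have := mul_nonneg (sub_nonneg.2 ht1) h0
      have := mul_nonneg (sub_nonneg.2 ht0) h1
      have := mul_nonneg hk (mul_nonneg (sub_nonneg.2 h.le)
        (mul_nonneg (sub_nonneg.2 ht0) (sub_nonneg.2 ht1)))
      linarith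
    exact nonneg_of_mul_nonneg_right e1 (by linarith)

/-- the sixteen vertices -/
theorem box16 (U1 U2 U3 U4 V1 V2 V3 V4 l1 l2 m1 m2 f P2 P3 c h b g : ℝ) (hf : 0 ≤ f)
    (hU : U1 + U2 + U3 + U4 ≤ 0) (p0 p1 q0 q1 a0 a1 d0 d1 : ℝ)
    (H : ∀ x0 y0 a d : ℝ, (x0 = p0 ∨ x0 = p1) → (y0 = q0 ∨ y0 = q1) → (a = a0 ∨ a = a1) →
      (d = d0 ∨ d = d1) → 0 ≤ Phi U1 U2 U3 U4 V1 V2 V3 V4 l1 l2 m1 m2 f P2 P3 c h b g x0 y0 a d)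
    (x0 y0 a d : ℝ) (hx0 : p0 ≤ x0) (hx1 : x0 ≤ p1) (hy0 : q0 ≤ y0) (hy1 : y0 ≤ q1) (ha0 : a0 ≤ a)
    (ha1 : a ≤ a1) (hd0 : d0 ≤ d) (hd1 : d ≤ d1) :
    0 ≤ Phi U1 U2 U3 U4 V1 V2 V3 V4 l1 l2 m1 m2 f P2 P3 c h b g x0 y0 a d := by
  have s1 : ∀ y a' d' : ℝ, (y = q0 ∨ y = q1) → (a' = a0 ∨ a' = a1) → (d' = d0 ∨ d' = d1) →
      0 ≤ Phi U1 U2 U3 U4 V1 V2 V3 V4 l1 l2 m1 m2 f P2 P3 c h b g x0 y a' d' := by
    intro y a' d' hy ha hd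
    refine conc (fun t => Phi U1 U2 U3 U4 V1 V2 V3 V4 l1 l2 m1 m2 f P2 P3 c h b g t y a' d')
      (-(U1 + U2 + U3 + U4)) p0 p1 (by linarith) ?_ (H _ _ _ _ (Or.inl rfl) hy ha hd)
      (H _ _ _ _ (Or.inr rfl) hy ha hd) x0 hx0 hx1
    intro t
    simp only [Phi, Af, Gf, Hf]
    ring
  have s2 : ∀ a' d' : ℝ, (a' = a0 ∨ a' = a1) → (d' = d0 ∨ d' = d1) →
      0 ≤ Phi U1 U2 U3 U4 V1 V2 V3 V4 l1 l2 m1 m2 f P2 P3 c h b g x0 y0 a' d' := by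
    intro a' d' ha hd
    refine conc (fun t => Phi U1 U2 U3 U4 V1 V2 V3 V4 l1 l2 m1 m2 f P2 P3 c h b g x0 t a' d')
      (-3 * (U1 + U2 + U3 + U4)) q0 q1 (by linarith) ?_ (s1 _ _ _ (Or.inl rfl) ha hd)
      (s1 _ _ _ (Or.inr rfl) ha hd) y0 hy0 hy1
    intro t
    simp only [Phi, Af, Gf, Hf]
    ring
  have s3 : ∀ d' : ℝ, (d' = d0 ∨ d' = d1) →
      0 ≤ Phi U1 U2 U3 U4 V1 V2 V3 V4 l1 l2 m1 m2 f P2 P3 c h b g x0 y0 a d' := by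
    intro d' hd
    refine conc (fun t => Phi U1 U2 U3 U4 V1 V2 V3 V4 l1 l2 m1 m2 f P2 P3 c h b g x0 y0 t d')
      (3 / 2 * f) a0 a1 (by linarith) ?_ (s2 _ _ (Or.inl rfl) hd)
      (s2 _ _ (Or.inr rfl) hd) a ha0 ha1
    intro t
    simp only [Phi, Af, Gf, Hf]
    ring
  refine conc (fun t => Phi U1 U2 U3 U4 V1 V2 V3 V4 l1 l2 m1 m2 f P2 P3 c h b g x0 y0 a t)
    (3 / 2 * f) d0 d1 (by linarith) ?_ (s3 _ (Or.inl rfl)) (s3 _ (Or.inr rfl)) d hd0 hd1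
  intro t
  simp only [Phi, Af, Gf, Hf]
  ring

end Pool.Agent.Helper88.P4
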