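import Pool.Agent.Helper88.SH.TC

/-!
# SHARP (MP_b21509_co), link (4): the integer checker (tree) and its soundness
-/

set_option autoImplicit false

namespace Pool.Agent.Helper88.P4

/-- the parameters, over the scale `N`: `f = F/N`, prices `P2/N`, `P3/N`, price box `[lo, hi] × [-be, be]`,
ring `R0 ≤ N² |z₀|² ≤ R1` -/
structure Par where
  N : ℤ
  F : ℤ
  P2 : ℤ
  P3 : ℤ
  lo : ℤ
  hi : ℤ
  be : ℤ
  R0 : ℤ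
  R1 : ℤ

/-- the data of a cell of type (C) -/
structure DC where
  r1 : ℤ
  r2 : ℤ
  r3 : ℤ
  r4 : ℤ
  U1 : ℤ
  U2 : ℤ
  U3 : ℤ
  U4 : ℤ
  V1 : ℤ
  V2 : ℤ
  V3 : ℤ
  V4 : ℤ
  m1 : ℤ
  m2 : ℤ

/-- the vertex test with the values of `A, G, H` (scaled) -/
def vt (P2 P3 lo hi be a2 a3 A G H : ℤ) : Bool :=
  decide (48 * a3 * (G * G - 8 * P2 * (if 0 ≤ G then lo * G else hi * G)) +
    a2 * (H * H + 96 * P3 * be * (if 0 ≤ H then H else -H)) ≤ 192 * a2 * a3 * A)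

/-- the vertex test; `c..`, `g..`, `h..` are the coefficients -/
def vx (P : Par) (a2 a3 SU SV c0 cx cX cy cY g0 gx gy h0 hx hy m1 m2 x y X Y w : ℤ) : Bool :=
  vt P.P2 P.P3 P.lo P.hi P.be a2 a3
    (c0 + cx * x + cX * X + cy * y + cY * Y + 2 * SU * (x * X + 3 * (y * Y)) +
      6 * SV * (x * Y - y * X) - w)
    (g0 + gx * x + gy * y - 2 * m1 * X + 2 * m2 * Y)
    (h0 + hx * x + hy * y - 48 * m1 * Y - 4 * m2 * X)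

/-- four vertices with the same `z₀` -/
def vy (P : Par) (a2 a3 SU SV c0 cx cX cy cY g0 gx gy h0 hx hy m1 m2 x y A0 A1 E0 E1 w00 w01 w10 w11 : ℤ) :
    Bool :=
  vx P a2 a3 SU SV c0 cx cX cy cY g0 gx gy h0 hx hy m1 m2 x y (x + A0) (y + E0) w00 &&
  (vx P a2 a3 SU SV c0 cx cX cy cY g0 gx gy h0 hx hy m1 m2 x y (x + A0) (y + E1) w01 &&
  (vx P a2 a3 SU SV c0 cx cX cy cY g0 gx gy h0 hx hy m1 m2 x y (x + A1) (y + E0) w10 &&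
  vx P a2 a3 SU SV c0 cx cX cy cY g0 gx gy h0 hx hy m1 m2 x y (x + A1) (y + E1) w11))

/-- sixteen vertices -/
def vz (P : Par) (a2 a3 SU SV c0 cx cX cy cY g0 gx gy h0 hx hy m1 m2 X0 X1 Y0 Y1 A0 A1 E0 E1
    w00 w01 w10 w11 : ℤ) : Bool :=
  vy P a2 a3 SU SV c0 cx cX cy cY g0 gx gy h0 hx hy m1 m2 X0 Y0 A0 A1 E0 E1 w00 w01 w10 w11 &&
  (vy P a2 a3 SU SV c0 cx cX cy cY g0 gx gy h0 hx hy m1 m2 X0 Y1 A0 A1 E0 E1 w00 w01 w10 w11 &&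
  (vy P a2 a3 SU SV c0 cx cX cy cY g0 gx gy h0 hx hy m1 m2 X1 Y0 A0 A1 E0 E1 w00 w01 w10 w11 &&
  vy P a2 a3 SU SV c0 cx cX cy cY g0 gx gy h0 hx hy m1 m2 X1 Y1 A0 A1 E0 E1 w00 w01 w10 w11))

/-- the absolute value -/
def iabs (m : ℤ) : ℤ := if 0 ≤ m then m else -m

/-- the coefficients from `u1 = U1 - U2` etc. -/
def vw (P : Par) (L S1U S2U S1V S2V u1 u2 v1 v2 m1 m2 X0 X1 Y0 Y1 A0 A1 E0 E1 : ℤ) : Bool :=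
  vz P (2 * P.P2 + L) (2 * P.P3 + L) (S1U + S2U) (S1V + S2V)
    (P.N * P.N * (2 * (S1U + S2U) - L))
    (P.N * (u1 - u2 + 3 * (v1 + v2)))
    (P.N * (u1 - u2 - 3 * (v1 + v2) + 2 * m1))
    (P.N * (3 * (u1 + u2) - 3 * (v1 - v2)))
    (P.N * (3 * (u1 + u2) + 3 * (v1 - v2) + 2 * m2))
    (P.N * (3 * (S2V - S1V) - (S1U + S2U)))
    (u1 - u2 - 3 * (v1 + v2))
    (3 * (v2 - v1) - 3 * (u1 + u2))
    (P.N * (15 * (S1U - S2U) - 33 * (S1V + S2V)))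
    (24 * (u1 + u2) + 6 * (v1 - v2))
    (6 * (u1 - u2) - 72 * (v1 + v2))
    m1 m2 X0 X1 Y0 Y1 A0 A1 E0 E1
    (3 * P.F * (A0 * A0 + E0 * E0)) (3 * P.F * (A0 * A0 + E1 * E1))
    (3 * P.F * (A1 * A1 + E0 * E0)) (3 * P.F * (A1 * A1 + E1 * E1))

/-- one edge: `r ≥ 0`, `(r + U)² + 3 V² ≤ r²`, `r² (x² + 3 y²) ≤ 4 N⁴` -/
def ed (N r U V x y : ℤ) : Bool :=
  decide (0 ≤ r) && (decide ((r + U) * (r + U) + 3 * (V * V) ≤ r * r) &&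
    decide (r * r * (x * x + 3 * (y * y)) ≤ 4 * (N * N * (N * N))))

/-- the test of a cell -/
def leafC (P : Par) (d : DC) (X0 X1 Y0 Y1 A0 A1 E0 E1 : ℤ) : Bool :=
  ed P.N d.r1 d.U1 d.V1 (P.N + 2 * X1) (P.N + 2 * Y1) &&
  (ed P.N d.r2 d.U2 d.V2 (P.N - 2 * X0) (P.N - 2 * Y0) &&
  (ed P.N d.r3 d.U3 d.V3 (P.N - 2 * X0) (P.N + 2 * Y1) &&
  (ed P.N d.r4 d.U4 d.V4 (P.N + 2 * X1) (P.N - 2 * Y0) &&
  vw P (iabs d.m1 + iabs d.m2) (d.U1 + d.U2) (d.U3 + d.U4) (d.V1 + d.V2) (d.V3 + d.V4)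
    (d.U1 - d.U2) (d.U3 - d.U4) (d.V1 - d.V2) (d.V3 - d.V4) d.m1 d.m2 X0 X1 Y0 Y1 A0 A1 E0 E1)))

/-- the tree; `β` is the data type of the cells of type (B) -/
inductive T (β : Type) where
  | o : T β
  | c : DC → T β
  | b : β → T β
  | x : ℤ → T β → T β → T β
  | y : ℤ → T β → T β → T β
  | a : ℤ → T β → T β → T β
  | d : ℤ → T β → T β → T β

/-- a cell outside of the ring -/
def outC (P : Par) (X0 X1 Y0 Y1 : ℤ) : Bool :=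
  (decide (0 ≤ X0) && (decide (0 ≤ Y0) && decide (P.R1 < X0 * X0 + 3 * (Y0 * Y0)))) ||
  decide (X1 * X1 + 3 * (Y1 * Y1) < P.R0)

/-- the checker -/
def chk {β : Type} (P : Par) (LB : β → ℤ → ℤ → ℤ → ℤ → ℤ → ℤ → ℤ → ℤ → Bool) :
    T β → ℤ → ℤ → ℤ → ℤ → ℤ → ℤ → ℤ → ℤ → Bool
  | .o, X0, X1, Y0, Y1, _, _, _, _ => outC P X0 X1 Y0 Y1
  | .c d, X0, X1, Y0, Y1, A0, A1, E0, E1 => leafC P d X0 X1 Y0 Y1 A0 A1 E0 E1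
  | .b d, X0, X1, Y0, Y1, A0, A1, E0, E1 => LB d X0 X1 Y0 Y1 A0 A1 E0 E1
  | .x m s t, X0, X1, Y0, Y1, A0, A1, E0, E1 =>
      chk P LB s X0 m Y0 Y1 A0 A1 E0 E1 && chk P LB t m X1 Y0 Y1 A0 A1 E0 E1
  | .y m s t, X0, X1, Y0, Y1, A0, A1, E0, E1 =>
      chk P LB s X0 X1 Y0 m A0 A1 E0 E1 && chk P LB t X0 X1 m Y1 A0 A1 E0 E1
  | .a m s t, X0, X1, Y0, Y1, A0, A1, E0, E1 =>
      chk P LB s X0 X1 Y0 Y1 A0 m E0 E1 && chk P LB t X0 X1 Y0 Y1 m A1 E0 E1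
  | .d m s t, X0, X1, Y0, Y1, A0, A1, E0, E1 =>
      chk P LB s X0 X1 Y0 Y1 A0 A1 E0 m && chk P LB t X0 X1 Y0 Y1 A0 A1 m E1

end Pool.Agent.Helper88.P4
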